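import Mathlib
import Pool.Agent.W845.CP.Base2

set_option autoImplicit false

/-!
Project CP (helper845), part UPS: the global Lyapunov function.
-/

namespace Pool.Agent.W817.CPU

open Pool.Agent.W845.CP Finset
open scoped BigOperators ENNReal

section

variable {V : Type} [DecidableEq V]

lemma gen_congr (nb : V → Finset V) (lam : ℝ) (f g : Finset V → ℝ) (A : Finset V)
    (h0 : f A = g A) (h1 : ∀ x ∈ A, f (A.erase x) = g (A.erase x))
    (h2 : ∀ x ∈ A, ∀ y ∈ nb x, f (insert y A) = g (insert y A)) :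
    gen nb lam f A = gen nb lam g A := by
  unfold gen
  congr 1
  · refine Finset.sum_congr rfl fun x hx => ?_
    rw [h0, h1 x hx]
  · congr 1
    refine Finset.sum_congr rfl fun x hx => Finset.sum_congr rfl fun y hy => ?_
    rw [h0, h2 x hx y hy]

end

/-- Hubs influenced by a vertex. -/
def hb (k : ℕ → ℕ) : Vx → Finset (ℕ × ℕ)
  | .h n y _ => {(n, y)}
  | .t n i y => {(n, y / 2 ^ i)}
  | .p n _ y => {(n, y / 2 ^ k n), (n + 1, y)}

lemma mem_cl (m : ℕ → ℕ) (n x : ℕ) (v : Vx) : v ∈ cl m n x ↔ ∃ i, i < m n ∧ v = Vx.h n x i := by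
  unfold cl
  simp only [Finset.mem_image, Finset.mem_range]
  constructor
  · rintro ⟨i, hi, rfl⟩; exact ⟨i, hi, rfl⟩
  · rintro ⟨i, hi, rfl⟩; exact ⟨i, hi, rfl⟩

lemma card_cl (m : ℕ → ℕ) (n x : ℕ) : (cl m n x).card = m n := by
  unfold cl
  rw [Finset.card_image_of_injective _ (fun a b h => by injection h), Finset.card_range]

lemma mem_kids (k : ℕ → ℕ) (n x y : ℕ) : y ∈ kids k n x ↔ y / 2 ^ k n = x := by
  unfold kids
  rw [Finset.mem_Ico]
  have h2 : 0 < 2 ^ k n := by positivity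
  constructor
  · rintro ⟨h, h'⟩
    rw [Nat.div_eq_of_lt_le h]
    exact h'
  · rintro rfl
    exact ⟨Nat.div_mul_le_self _ _, by
      have := Nat.lt_div_mul_add (a := y) h2
      rw [Nat.add_mul, one_mul]; exact this⟩

lemma nbx_h (m k l : ℕ → ℕ) (n y i : ℕ) : nbx m k l (Vx.h n y i) =
    if i < m n then ((Finset.range (m n)).erase i).image (Vx.h n y) ∪
      (if i = 0 then insert (Vx.t n 0 y) (upv l n y) else ∅) else ∅ := rfl

lemma nbx_t (m k l : ℕ → ℕ) (n i y : ℕ) : nbx m k l (Vx.t n i y) =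
    if i ≤ k n then insert (if i = 0 then Vx.h n y 0 else Vx.t n (i - 1) (y / 2))
      (if i < k n then {Vx.t n (i + 1) (2 * y), Vx.t n (i + 1) (2 * y + 1)} else {Vx.p n 0 y})
      else ∅ := rfl

lemma nbx_p (m k l : ℕ → ℕ) (n j y : ℕ) : nbx m k l (Vx.p n j y) =
    if j < l n then {(if j = 0 then Vx.t n (k n) y else Vx.p n (j - 1) y),
         (if j + 1 < l n then Vx.p n (j + 1) y else Vx.h (n + 1) y 0)} else ∅ := rfl

lemma mem_Ext (l : ℕ → ℕ) (n x : ℕ) (v : Vx) : v ∈ Pool.Agent.W845.CP.Ext l n x ↔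
    v = Vx.t n 0 x ∨ v ∈ upv l n x := by
  unfold Pool.Agent.W845.CP.Ext
  rw [Finset.mem_insert]

section Pieces

variable (m k l : ℕ → ℕ) (lam : ℝ)

lemma dsum_nonneg (hS : St_SEQ) (hl : 0 < lam) (M : ℕ) (hM : 1 ≤ M) (c : ℕ) :
    0 ≤ dsum lam M c := by
  unfold dsum
  refine Finset.sum_nonneg fun j hj => ?_
  rw [Finset.mem_Ioc] at hj
  have := (hS.1 lam hl.le M hM).2.2.1 j (by omega) hj.2
  positivity

lemma dsum_le (hS : St_SEQ) (hl : 0 < lam) (M : ℕ) (hM : 1 ≤ M) (c : ℕ) :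
    dsum lam M c ≤ dsum lam M 0 := by
  unfold dsum
  refine Finset.sum_le_sum_of_subset_of_nonneg ?_ ?_
  · intro j hj
    rw [Finset.mem_Ioc] at hj ⊢
    omega
  · intro j hj _
    rw [Finset.mem_Ioc] at hj
    have := (hS.1 lam hl.le M hM).2.2.1 j (by omega) hj.2
    positivity

lemma dsum_pos (hS : St_SEQ) (hl : 0 < lam) (M : ℕ) (hM : 1 ≤ M) : 0 < dsum lam M 0 :=
  (hS.1 lam hl.le M hM).2.2.2.2.2.2.2.1

lemma Ts_pos (hS : St_SEQ) (hl : 0 < lam) (M : ℕ) (hM : 1 ≤ M) : 0 < Ts lam M := by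
  have := dsum_pos lam hS hl M hM
  unfold Ts
  have hM' : (0 : ℝ) < M := by exact_mod_cast hM
  positivity

lemma gam_mem (hS : St_SEQ) (hl : 0 < lam) (M : ℕ) (hM : 1 ≤ M) (c : ℕ) :
    0 ≤ gam lam M c ∧ gam lam M c ≤ 1 := by
  have h0 := dsum_pos lam hS hl M hM
  unfold gam
  exact ⟨div_nonneg (dsum_nonneg lam hS hl M hM c) h0.le,
    (div_le_one h0).2 (dsum_le lam hS hl M hM c)⟩

lemma gam_zero (hS : St_SEQ) (hl : 0 < lam) (M : ℕ) (hM : 1 ≤ M) : gam lam M 0 = 1 := by
  have h0 := dsum_pos lam hS hl M hM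
  unfold gam
  exact div_self h0.ne'

/-- potential of a hub -/
noncomputable def Vq (n x : ℕ) (A : Finset Vx) : ℝ :=
  Ts lam (m n) * (1 - gam lam (m n) (A ∩ cl m n x).card * (1 - SS k l lam n x A))

variable (hm : ∀ n, 1 ≤ m n) (hk : ∀ n, 1 ≤ k n) (hl1 : ∀ n, 1 ≤ l n) (hlam : 0 < lam)
  (hlam' : lam ≤ 1 / 20)

include hm hk hl1 hlam hlam'

lemma Vq_nonneg (hC1 : St_CONN1) (hS : St_SEQ) (n x : ℕ) (A : Finset Vx) :
    0 ≤ Vq m k l lam n x A := by
  have h1 := hC1 m k l hm hk hl1 lam hlam hlam' n x A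
  have h2 := gam_mem lam hS hlam (m n) (hm n) (A ∩ cl m n x).card
  unfold Vq
  refine mul_nonneg (Ts_pos lam hS hlam _ (hm n)).le ?_
  nlinarith [h1.1, h1.2.1, h2.1, h2.2]

lemma Vq_gen (hU : St_HUP) (hC1 : St_CONN1) (n x : ℕ) (A : Finset Vx) :
    gen (nbx m k l) lam (Vq m k l lam n x) A ≤
      -(if (A ∩ cl m n x).Nonempty then 1 else 0) + Ts lam (m n) * EE k l lam n x A := by
  have hv : Vx.h n x 0 ∈ cl m n x := (mem_cl m n x _).2 ⟨0, hm n, rfl⟩
  have h := hU Vx (nbx m k l) lam hlam hlam' (cl m n x) (Pool.Agent.W845.CP.Ext l n x) (Vx.h n x 0) hv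
    (by
      rw [Finset.disjoint_left]
      intro a ha hb
      obtain ⟨i, _, rfl⟩ := (mem_cl m n x a).1 ha
      rw [mem_Ext] at hb
      rcases n with _ | n <;> simp [upv] at hb)
    (by
      intro a ha
      obtain ⟨i, hi, rfl⟩ := (mem_cl m n x a).1 ha
      rw [nbx_h, if_pos hi]
      congr 1
      · ext b
        simp only [Finset.mem_image, Finset.mem_erase, Finset.mem_range, mem_cl]
        constructor
        · rintro ⟨j, ⟨hj, hj'⟩, rfl⟩
          exact ⟨fun h => hj (by injection h), j, hj', rfl⟩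
        · rintro ⟨hne, j, hj, rfl⟩
          exact ⟨j, ⟨fun h => hne (by rw [h]), hj⟩, rfl⟩
      · by_cases h0 : i = 0
        · subst h0; simp [Pool.Agent.W845.CP.Ext]
        · rw [if_neg h0, if_neg]
          intro h; injection h with _ _ h3; exact h0 h3)
    (by
      intro y hy
      ext b
      rw [Finset.mem_inter]
      constructor
      · rintro ⟨hb, hb'⟩
        obtain ⟨i, hi, rfl⟩ := (mem_cl m n x b).1 hb'
        cases y with
        | h n' y' i' =>
          exfalso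
          rw [nbx_h] at hb
          split_ifs at hb with h1 h2
          · simp only [Finset.mem_union, Finset.mem_image, Finset.mem_erase, Finset.mem_range,
              Finset.mem_insert, reduceCtorEq, false_or] at hb
            rcases hb with ⟨j, hj, hj'⟩ | hb
            · injection hj' with e1 e2 e3
              subst e1 e2
              exact hy ((mem_cl m _ _ _).2 ⟨i', h1, rfl⟩)
            · rcases n' with _ | n' <;> simp [upv] at hb
          · simp only [Finset.mem_union, Finset.mem_image, Finset.mem_erase, Finset.mem_range,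
              Finset.notMem_empty, or_false] at hb
            obtain ⟨j, hj, hj'⟩ := hb
            injection hj' with e1 e2 e3
            subst e1 e2
            exact hy ((mem_cl m _ _ _).2 ⟨i', h1, rfl⟩)
          · simp at hb
        | t n' i' y' =>
          rw [nbx_t] at hb
          split_ifs at hb with h1 h2 h3 <;>
            simp only [Finset.mem_insert, Finset.mem_singleton, reduceCtorEq, or_false,
              Finset.notMem_empty] at hb
          · injection hb with e1 e2 e3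
            subst e1 e2 e3 h2
            simp [Pool.Agent.W845.CP.Ext]
          · injection hb with e1 e2 e3
            subst e1 e2 e3 h2
            simp [Pool.Agent.W845.CP.Ext]
        | p n' j' y' =>
          rw [nbx_p] at hb
          split_ifs at hb with h1 h2 h3 h3 <;>
            simp only [Finset.mem_insert, Finset.mem_singleton, reduceCtorEq, or_false,
              Finset.notMem_empty, false_or] at hb
          · injection hb with e1 e2 e3
            subst e1 e2 e3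
            have : j' = l n' - 1 := by omega
            subst this
            simp [Pool.Agent.W845.CP.Ext, upv]
          · injection hb with e1 e2 e3
            subst e1 e2 e3
            have : j' = l n' - 1 := by omega
            subst this
            simp [Pool.Agent.W845.CP.Ext, upv]
      · intro hb
        split_ifs at hb with h1
        · rw [Finset.mem_singleton] at hb
          subst hb
          refine ⟨?_, hv⟩
          rw [mem_Ext] at h1
          rcases h1 with rfl | h1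
          · simp [nbx_t]
          · rcases n with _ | n
            · simp [upv] at h1
            · simp only [upv, Finset.mem_singleton] at h1
              subst h1
              have h2 : l n - 1 < l n := by have := hl1 n; omega
              have h3 : ¬ (l n - 1 + 1 < l n) := by omega
              rw [nbx_p, if_pos h2, if_neg h3]
              simp
        · simp at hb)
    (SS k l lam n x) (EE k l lam n x)
    (fun B => ⟨(hC1 m k l hm hk hl1 lam hlam hlam' n x B).1,
      (hC1 m k l hm hk hl1 lam hlam hlam' n x B).2.1⟩)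
    (fun B => (hC1 m k l hm hk hl1 lam hlam hlam' n x B).2.2.1)
    (by
      intro B a ha
      obtain ⟨i, _, rfl⟩ := (mem_cl m n x a).1 ha
      exact (hC1 m k l hm hk hl1 lam hlam hlam' n x B).2.2.2.1 n x i)
    (fun B => (hC1 m k l hm hk hl1 lam hlam hlam' n x B).2.2.2.2) A
  rw [card_cl] at h
  exact h

omit hk in
lemma Vq_zero (hP : St_PATH) (hS : St_SEQ) (n x : ℕ) (A : Finset Vx)
    (hA : (n, x) ∉ A.biUnion (hb k)) : Vq m k l lam n x A = 0 := by
  simp only [Finset.mem_biUnion, not_exists, not_and] at hA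
  have hcl : A ∩ cl m n x = ∅ := by
    rw [Finset.eq_empty_iff_forall_notMem]
    intro v hv
    rw [Finset.mem_inter] at hv
    obtain ⟨i, _, rfl⟩ := (mem_cl m n x v).1 hv.2
    exact hA _ hv.1 (by simp [hb])
  have hE : ∀ l0, 1 ≤ l0 → pO l0 lam ∅ = 0 := fun l0 h0 =>
    (hP lam hlam (by linarith) l0 h0).1.empty
  have hSS : SS k l lam n x A = 0 := by
    unfold SS
    have h1 : ∑ v ∈ A, wt k n x v = 0 := by
      refine Finset.sum_eq_zero fun v hv => ?_
      cases v with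
      | h _ _ _ => rfl
      | p _ _ _ => rfl
      | t n' i y =>
        show (if n' = n ∧ i ≤ k n ∧ y / 2 ^ i = x then (1 / 19 : ℝ) ^ i else 0) = 0
        rw [if_neg]
        rintro ⟨rfl, _, rfl⟩
        exact hA _ hv (by simp [hb])
    have h2 : ∑ y ∈ kids k n x, O1 l lam n y A = 0 := by
      refine Finset.sum_eq_zero fun y hy => ?_
      rw [mem_kids] at hy
      unfold O1
      have : pre l n y A = ∅ := by
        unfold pre
        rw [Finset.filter_eq_empty_iff]
        intro j _ hj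
        exact hA _ hj (by simp [hb, hy])
      rw [this]; exact hE _ (hl1 n)
    have h3 : SU l lam n x A = 0 := by
      rcases n with _ | n
      · rfl
      · show lam * O2 l lam n x A = 0
        unfold O2
        have : pre l n x A = ∅ := by
          unfold pre
          rw [Finset.filter_eq_empty_iff]
          intro j _ hj
          exact hA _ hj (by simp [hb])
        rw [this, Finset.image_empty, hE _ (hl1 n), mul_zero]
    rw [h1, h2, h3]; ring
  unfold Vq
  rw [hcl, Finset.card_empty, hSS, gam_zero lam hS hlam _ (hm n)]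
  ring

omit hm hk in
lemma HH_zero (hP : St_PATH) (n x : ℕ) (A : Finset Vx)
    (hA : (n, x) ∉ A.biUnion (hb k)) : HH k l lam n x A = 0 := by
  simp only [Finset.mem_biUnion, not_exists, not_and] at hA
  unfold HH
  have h1 : ∑ v ∈ A, gt k n x v = 0 := by
    refine Finset.sum_eq_zero fun v hv => ?_
    cases v with
    | h _ _ _ => rfl
    | p _ _ _ => rfl
    | t n' i y =>
      show (if n' = n ∧ i ≤ k n ∧ y / 2 ^ i = x then (2 / 19 : ℝ) ^ (k n - i) else 0) = 0
      rw [if_neg]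
      rintro ⟨rfl, _, rfl⟩
      exact hA _ hv (by simp [hb])
  have h2 : ∑ y ∈ kids k n x, O1 l lam n y A = 0 := by
    refine Finset.sum_eq_zero fun y hy => ?_
    rw [mem_kids] at hy
    unfold O1
    have : pre l n y A = ∅ := by
      unfold pre
      rw [Finset.filter_eq_empty_iff]
      intro j _ hj
      exact hA _ hj (by simp [hb, hy])
    rw [this]
    exact (hP lam hlam (by linarith) (l n) (hl1 n)).1.empty
  rw [h1, h2]; ring

end Pieces

/-! ### Sums over the infected vertices -/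

/-- ports of the hubs below `(n, x)` -/
def pcw (k : ℕ → ℕ) (n x : ℕ) : Vx → ℝ
  | .h n' y i => if n' = n + 1 ∧ i = 0 ∧ y / 2 ^ k n = x then 1 else 0
  | _ => 0

/-- leaves below `(n, x)` -/
def lcw (k : ℕ → ℕ) (n x : ℕ) : Vx → ℝ
  | .t n' i y => if n' = n ∧ i = k n ∧ y / 2 ^ k n = x then 1 else 0
  | _ => 0

/-- leaf above the hub `(n, x)` -/
def euw (k : ℕ → ℕ) (n x : ℕ) : Vx → ℝ
  | .t n' i y => if n' + 1 = n ∧ i = k n' ∧ y = x then 1 else 0
  | _ => 0

/-- port of the hub `(n, x)` -/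
def ptw (n x : ℕ) : Vx → ℝ
  | .h n' y i => if n' = n ∧ i = 0 ∧ y = x then 1 else 0
  | _ => 0

lemma nch_eq (k : ℕ → ℕ) (n x : ℕ) (A : Finset Vx) :
    (nch k n x A : ℝ) = ∑ v ∈ A, pcw k n x v := by
  classical
  unfold nch
  have h1 : ∑ v ∈ A, pcw k n x v =
      ((A.filter fun v => ∃ y, v = Vx.h (n + 1) y 0 ∧ y / 2 ^ k n = x).card : ℝ) := by
    rw [Finset.card_filter, Nat.cast_sum]
    refine Finset.sum_congr rfl fun v _ => ?_
    cases v with
    | h n' y i =>
      show (if n' = n + 1 ∧ i = 0 ∧ y / 2 ^ k n = x then (1 : ℝ) else 0) = _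
      by_cases hh : n' = n + 1 ∧ i = 0 ∧ y / 2 ^ k n = x
      · rw [if_pos hh, if_pos ⟨y, by rw [hh.1, hh.2.1], hh.2.2⟩]; simp
      · rw [if_neg hh, if_neg]
        · simp
        · rintro ⟨y', h', h''⟩
          injection h' with e1 e2 e3
          exact hh ⟨e1, e3, by rw [e2]; exact h''⟩
    | t n' i y => simp [pcw]
    | p n' j y => simp [pcw]
  rw [h1]
  congr 1
  refine Finset.card_bij (fun y _ => Vx.h (n + 1) y 0) ?_ ?_ ?_
  · intro y hy
    rw [Finset.mem_filter, mem_kids] at hy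
    rw [Finset.mem_filter]
    exact ⟨hy.2, y, rfl, hy.1⟩
  · intro a _ b _ h
    injection h
  · intro v hv
    rw [Finset.mem_filter] at hv
    obtain ⟨hv, y, rfl, hy⟩ := hv
    exact ⟨y, by rw [Finset.mem_filter, mem_kids]; exact ⟨hy, hv⟩, rfl⟩

lemma nlf_eq (k : ℕ → ℕ) (n x : ℕ) (A : Finset Vx) :
    (nlf k n x A : ℝ) = ∑ v ∈ A, lcw k n x v := by
  classical
  unfold nlf
  have h1 : ∑ v ∈ A, lcw k n x v =
      ((A.filter fun v => ∃ y, v = Vx.t n (k n) y ∧ y / 2 ^ k n = x).card : ℝ) := by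
    rw [Finset.card_filter, Nat.cast_sum]
    refine Finset.sum_congr rfl fun v _ => ?_
    cases v with
    | t n' i y =>
      show (if n' = n ∧ i = k n ∧ y / 2 ^ k n = x then (1 : ℝ) else 0) = _
      by_cases hh : n' = n ∧ i = k n ∧ y / 2 ^ k n = x
      · rw [if_pos hh, if_pos ⟨y, by rw [hh.1, hh.2.1], hh.2.2⟩]; simp
      · rw [if_neg hh, if_neg]
        · simp
        · rintro ⟨y', h', h''⟩
          injection h' with e1 e2 e3
          exact hh ⟨e1, e2, by rw [e3]; exact h''⟩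
    | h n' i y => simp [lcw]
    | p n' j y => simp [lcw]
  rw [h1]
  congr 1
  refine Finset.card_bij (fun y _ => Vx.t n (k n) y) ?_ ?_ ?_
  · intro y hy
    rw [Finset.mem_filter, mem_kids] at hy
    rw [Finset.mem_filter]
    exact ⟨hy.2, y, rfl, hy.1⟩
  · intro a _ b _ h
    injection h
  · intro v hv
    rw [Finset.mem_filter] at hv
    obtain ⟨hv, y, rfl, hy⟩ := hv
    exact ⟨y, by rw [Finset.mem_filter, mem_kids]; exact ⟨hy, hv⟩, rfl⟩

lemma port_eq (n x : ℕ) (A : Finset Vx) :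
    (if Vx.h n x 0 ∈ A then (1 : ℝ) else 0) = ∑ v ∈ A, ptw n x v := by
  have h1 : ∑ v ∈ A, ptw n x v = ∑ v ∈ A, if Vx.h n x 0 = v then (1 : ℝ) else 0 := by
    refine Finset.sum_congr rfl fun v _ => ?_
    cases v with
    | h n' y i =>
      show (if n' = n ∧ i = 0 ∧ y = x then (1 : ℝ) else 0) = _
      by_cases hh : n' = n ∧ i = 0 ∧ y = x
      · rw [if_pos hh, if_pos]; rw [hh.1, hh.2.1, hh.2.2]
      · rw [if_neg hh, if_neg]
        intro h'
        injection h' with e1 e2 e3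
        exact hh ⟨e1.symm, e3.symm, e2.symm⟩
    | t n' i y => simp [ptw]
    | p n' j y => simp [ptw]
  rw [h1, Finset.sum_ite_eq]

lemma EU_eq (k l : ℕ → ℕ) (lam : ℝ) (n x : ℕ) (A : Finset Vx) :
    EU k l lam n x A = (∑ v ∈ A, euw k n x v) * (lam ^ 2 * oo (l (n - 1)) lam) := by
  rcases n with _ | n
  · have : ∑ v ∈ A, euw k 0 x v = 0 := by
      refine Finset.sum_eq_zero fun v _ => ?_
      cases v <;> simp [euw]
    rw [this]; simp [EU]
  · have h1 : ∑ v ∈ A, euw k (n + 1) x v =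
        ∑ v ∈ A, if Vx.t n (k n) x = v then (1 : ℝ) else 0 := by
      refine Finset.sum_congr rfl fun v _ => ?_
      cases v with
      | t n' i y =>
        show (if n' + 1 = n + 1 ∧ i = k n' ∧ y = x then (1 : ℝ) else 0) = _
        by_cases hh : n' + 1 = n + 1 ∧ i = k n' ∧ y = x
        · rw [if_pos hh, if_pos]
          have : n' = n := by omega
          subst this
          rw [hh.2.1, hh.2.2]
        · rw [if_neg hh, if_neg]
          intro h'
          injection h' with e1 e2 e3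
          exact hh ⟨by rw [e1], by rw [← e2, e1], e3.symm⟩
      | h n' i y => simp [euw]
      | p n' j y => simp [euw]
    rw [h1, Finset.sum_ite_eq]
    show (if Vx.t n (k n) x ∈ A then lam ^ 2 * oo (l n) lam else 0) = _
    by_cases hh : Vx.t n (k n) x ∈ A
    · rw [if_pos hh, if_pos hh]; simp
    · rw [if_neg hh, if_neg hh]; simp

/-- weight of the downward functional -/
noncomputable def Gw (m l : ℕ → ℕ) (lam : ℝ) (W : ℕ → ℝ) (n : ℕ) : ℝ :=
  2 * lam ^ 2 * W (n + 1) * Ts lam (m (n + 1)) * oo (l n) lam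

/-- contribution of one hub -/
noncomputable def Fq (m k l : ℕ → ℕ) (lam : ℝ) (W : ℕ → ℝ) (q : ℕ × ℕ) (A : Finset Vx) : ℝ :=
  W q.1 * Vq m k l lam q.1 q.2 A + Gw m l lam W q.1 * HH k l lam q.1 q.2 A

/-- majorant of the input of the vertex `v` into the hub `q` -/
noncomputable def Psi (m k l : ℕ → ℕ) (lam : ℝ) (W : ℕ → ℝ) (q : ℕ × ℕ) (v : Vx) : ℝ :=
  (2 * lam ^ 3 + 2 * lam ^ 4) * (W (q.1 + 1) * pcw k q.1 q.2 v) +
    2 * lam ^ 3 * (W q.1 * ptw q.1 q.2 v) +
    (Gw m l lam W (q.1 - 1) / 2 * euw k q.1 q.2 v - Gw m l lam W q.1 / 2 * lcw k q.1 q.2 v)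

lemma pcw_nonneg (k : ℕ → ℕ) (n x : ℕ) (v : Vx) : 0 ≤ pcw k n x v := by
  cases v with
  | h n' y i =>
    show (0 : ℝ) ≤ (if n' = n + 1 ∧ i = 0 ∧ y / 2 ^ k n = x then (1 : ℝ) else 0)
    split_ifs <;> norm_num
  | t _ _ _ => exact le_rfl
  | p _ _ _ => exact le_rfl

lemma ptw_nonneg (n x : ℕ) (v : Vx) : 0 ≤ ptw n x v := by
  cases v with
  | h n' y i =>
    show (0 : ℝ) ≤ (if n' = n ∧ i = 0 ∧ y = x then (1 : ℝ) else 0)
    split_ifs <;> norm_num
  | t _ _ _ => exact le_rfl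
  | p _ _ _ => exact le_rfl

lemma sum_single_le (I : Finset (ℕ × ℕ)) (c : ℕ × ℕ → ℝ) (hc : ∀ q, 0 ≤ c q) (q0 : ℕ × ℕ)
    (w : ℕ × ℕ → ℝ) (hw : ∀ q, w q = if q = q0 then 1 else 0) :
    ∑ q ∈ I, c q * w q ≤ c q0 := by
  have : ∀ q ∈ I, c q * w q = if q = q0 then c q0 else 0 := by
    intro q _
    rw [hw]
    split_ifs with h
    · rw [h]; ring
    · ring
  rw [Finset.sum_congr rfl this, Finset.sum_ite_eq']
  split_ifs
  · exact le_rfl
  · exact hc q0

lemma sum_single_eq (I : Finset (ℕ × ℕ)) (c : ℕ × ℕ → ℝ) (q0 : ℕ × ℕ) (h0 : q0 ∈ I)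
    (w : ℕ × ℕ → ℝ) (hw : ∀ q, w q = if q = q0 then 1 else 0) :
    ∑ q ∈ I, c q * w q = c q0 := by
  have : ∀ q ∈ I, c q * w q = if q = q0 then c q0 else 0 := by
    intro q _
    rw [hw]
    split_ifs with h
    · rw [h]; ring
    · ring
  rw [Finset.sum_congr rfl this, Finset.sum_ite_eq', if_pos h0]

lemma ptw_port (n y : ℕ) (q : ℕ × ℕ) :
    ptw q.1 q.2 (Vx.h n y 0) = if q = (n, y) then 1 else 0 := by
  obtain ⟨a, b⟩ := q
  show (if n = a ∧ 0 = 0 ∧ y = b then (1 : ℝ) else 0) = _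
  by_cases h : n = a ∧ y = b
  · obtain ⟨rfl, rfl⟩ := h
    simp
  · rw [if_neg (fun h' => h ⟨h'.1, h'.2.2⟩), if_neg]
    intro h'
    rw [Prod.mk.injEq] at h'
    exact h ⟨h'.1.symm, h'.2.symm⟩

lemma sum_Psi (m k l : ℕ → ℕ) (lam : ℝ) (W : ℕ → ℝ) (hl : 0 < lam) (hW : ∀ n, 0 < W n)
    (hG : ∀ n, 0 ≤ Gw m l lam W n) (I : Finset (ℕ × ℕ)) (v : Vx) (hv : hb k v ⊆ I) :
    ∑ q ∈ I, Psi m k l lam W q v ≤
      (4 * lam ^ 3 + 2 * lam ^ 4) * ∑ q ∈ I, W q.1 * ptw q.1 q.2 v := by
  unfold Psi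
  rw [Finset.sum_add_distrib, Finset.sum_add_distrib, ← Finset.mul_sum, ← Finset.mul_sum]
  cases v with
  | h n y i =>
    have h3 : ∑ q ∈ I, (Gw m l lam W (q.1 - 1) / 2 * euw k q.1 q.2 (Vx.h n y i) -
        Gw m l lam W q.1 / 2 * lcw k q.1 q.2 (Vx.h n y i)) = 0 := by
      refine Finset.sum_eq_zero fun q _ => ?_
      show _ * (0 : ℝ) - _ * (0 : ℝ) = 0
      ring
    rw [h3]
    by_cases hi : i = 0
    · subst hi
      have hq0 : (n, y) ∈ I := hv (by simp [hb])
      have h1 : ∑ q ∈ I, W q.1 * ptw q.1 q.2 (Vx.h n y 0) = W n :=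
        sum_single_eq I (fun q => W q.1) (n, y) hq0 _ (ptw_port n y)
      have h2 : ∑ q ∈ I, W (q.1 + 1) * pcw k q.1 q.2 (Vx.h n y 0) ≤ W n := by
        rcases n with _ | n
        · have : ∑ q ∈ I, W (q.1 + 1) * pcw k q.1 q.2 (Vx.h 0 y 0) = 0 := by
            refine Finset.sum_eq_zero fun q _ => ?_
            show _ * (if 0 = q.1 + 1 ∧ 0 = 0 ∧ y / 2 ^ k q.1 = q.2 then (1 : ℝ) else 0) = 0
            rw [if_neg (by omega)]; ring
          rw [this]; exact (hW 0).le
        · refine sum_single_le I (fun q => W (q.1 + 1)) (fun q => (hW _).le) (n, y / 2 ^ k n) _ ?_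
          intro q
          obtain ⟨a, b⟩ := q
          show (if n + 1 = a + 1 ∧ 0 = 0 ∧ y / 2 ^ k a = b then (1 : ℝ) else 0) = _
          by_cases h : n = a ∧ y / 2 ^ k a = b
          · obtain ⟨rfl, rfl⟩ := h
            simp
          · rw [if_neg (fun h' => h ⟨by omega, h'.2.2⟩), if_neg]
            intro h'
            rw [Prod.mk.injEq] at h'
            obtain ⟨rfl, rfl⟩ := h'
            exact h ⟨rfl, rfl⟩
      rw [h1]
      have h4 : 0 ≤ 2 * lam ^ 3 + 2 * lam ^ 4 := by positivity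
      nlinarith [mul_le_mul_of_nonneg_left h2 h4]
    · have h1 : ∑ q ∈ I, W q.1 * ptw q.1 q.2 (Vx.h n y i) = 0 := by
        refine Finset.sum_eq_zero fun q _ => ?_
        show _ * (if n = q.1 ∧ i = 0 ∧ y = q.2 then (1 : ℝ) else 0) = 0
        rw [if_neg (fun h => hi h.2.1)]; ring
      have h2 : ∑ q ∈ I, W (q.1 + 1) * pcw k q.1 q.2 (Vx.h n y i) = 0 := by
        refine Finset.sum_eq_zero fun q _ => ?_
        show _ * (if n = q.1 + 1 ∧ i = 0 ∧ y / 2 ^ k q.1 = q.2 then (1 : ℝ) else 0) = 0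
        rw [if_neg (fun h => hi h.2.1)]; ring
      rw [h1, h2]; simp
  | t n i y =>
    have h1 : ∑ q ∈ I, W q.1 * ptw q.1 q.2 (Vx.t n i y) = 0 := by
      refine Finset.sum_eq_zero fun q _ => ?_
      show _ * (0 : ℝ) = 0
      ring
    have h2 : ∑ q ∈ I, W (q.1 + 1) * pcw k q.1 q.2 (Vx.t n i y) = 0 := by
      refine Finset.sum_eq_zero fun q _ => ?_
      show _ * (0 : ℝ) = 0
      ring
    rw [h1, h2, Finset.sum_sub_distrib]
    by_cases hi : i = k n
    · subst hi
      have hq0 : (n, y / 2 ^ k n) ∈ I := hv (by simp [hb])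
      have h3 : ∑ q ∈ I, Gw m l lam W q.1 / 2 * lcw k q.1 q.2 (Vx.t n (k n) y) =
          Gw m l lam W n / 2 := by
        refine sum_single_eq I (fun q => Gw m l lam W q.1 / 2) (n, y / 2 ^ k n) hq0 _ ?_
        intro q
        obtain ⟨a, b⟩ := q
        show (if n = a ∧ k n = k a ∧ y / 2 ^ k a = b then (1 : ℝ) else 0) = _
        by_cases h : n = a ∧ y / 2 ^ k a = b
        · obtain ⟨rfl, rfl⟩ := h
          simp
        · rw [if_neg (fun h' => h ⟨h'.1, h'.2.2⟩), if_neg]
          intro h'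
          rw [Prod.mk.injEq] at h'
          obtain ⟨rfl, rfl⟩ := h'
          exact h ⟨rfl, rfl⟩
      have h4 : ∑ q ∈ I, Gw m l lam W (q.1 - 1) / 2 * euw k q.1 q.2 (Vx.t n (k n) y) ≤
          Gw m l lam W n / 2 := by
        refine sum_single_le I (fun q => Gw m l lam W (q.1 - 1) / 2)
          (fun q => div_nonneg (hG _) (by norm_num)) (n + 1, y) _ ?_
        intro q
        obtain ⟨a, b⟩ := q
        show (if n + 1 = a ∧ k n = k n ∧ y = b then (1 : ℝ) else 0) = _
        by_cases h : n + 1 = a ∧ y = b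
        · obtain ⟨rfl, rfl⟩ := h
          simp
        · rw [if_neg (fun h' => h ⟨h'.1, h'.2.2⟩), if_neg]
          intro h'
          rw [Prod.mk.injEq] at h'
          obtain ⟨rfl, rfl⟩ := h'
          exact h ⟨rfl, rfl⟩
      rw [h3]; linarith
    · have h3 : ∑ q ∈ I, Gw m l lam W q.1 / 2 * lcw k q.1 q.2 (Vx.t n i y) = 0 := by
        refine Finset.sum_eq_zero fun q _ => ?_
        show _ * (if n = q.1 ∧ i = k q.1 ∧ y / 2 ^ k q.1 = q.2 then (1 : ℝ) else 0) = 0
        rw [if_neg (fun h => hi (by rw [h.2.1, h.1]))]; ring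
      have h4 : ∑ q ∈ I, Gw m l lam W (q.1 - 1) / 2 * euw k q.1 q.2 (Vx.t n i y) = 0 := by
        refine Finset.sum_eq_zero fun q _ => ?_
        show _ * (if n + 1 = q.1 ∧ i = k n ∧ y = q.2 then (1 : ℝ) else 0) = 0
        rw [if_neg (fun h => hi h.2.1)]; ring
      rw [h3, h4]; simp
  | p n j y =>
    have h1 : ∑ q ∈ I, W q.1 * ptw q.1 q.2 (Vx.p n j y) = 0 := by
      refine Finset.sum_eq_zero fun q _ => ?_
      show _ * (0 : ℝ) = 0
      ring
    have h2 : ∑ q ∈ I, W (q.1 + 1) * pcw k q.1 q.2 (Vx.p n j y) = 0 := by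
      refine Finset.sum_eq_zero fun q _ => ?_
      show _ * (0 : ℝ) = 0
      ring
    have h3 : ∑ q ∈ I, (Gw m l lam W (q.1 - 1) / 2 * euw k q.1 q.2 (Vx.p n j y) -
        Gw m l lam W q.1 / 2 * lcw k q.1 q.2 (Vx.p n j y)) = 0 := by
      refine Finset.sum_eq_zero fun q _ => ?_
      show _ * (0 : ℝ) - _ * (0 : ℝ) = 0
      ring
    rw [h1, h2, h3]; simp

/-- hub met -/
noncomputable def hubi (m : ℕ → ℕ) (q : ℕ × ℕ) (A : Finset Vx) : ℝ :=
  if (A ∩ cl m q.1 q.2).Nonempty then 1 else 0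

lemma gen_Fq (hU : St_HUP) (hC1 : St_CONN1) (hC2 : St_CONN2) (hS : St_SEQ) (hP : St_PATH)
    (m k l : ℕ → ℕ) (hm : ∀ n, 1 ≤ m n) (hk : ∀ n, 1 ≤ k n) (hl1 : ∀ n, 1 ≤ l n)
    (lam : ℝ) (hlam : 0 < lam) (hlam' : lam ≤ 1 / 20) (W : ℕ → ℝ) (hW : ∀ n, 0 < W n)
    (h1 : ∀ n, W (n + 1) * Ts lam (m (n + 1)) * oo (l n) lam * (2 / 19 : ℝ) ^ k n ≤ W n)
    (h2 : ∀ n, W n * Ts lam (m n) * (1 / 19 : ℝ) ^ k n * oo (l n) lam ≤ W (n + 1))
    (h3 : ∀ n, Ts lam (m (n + 1)) * oo (l n) lam ^ 2 ≤ 1) (q : ℕ × ℕ) (A : Finset Vx) :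
    gen (nbx m k l) lam (Fq m k l lam W q) A ≤
      - (W q.1 * hubi m q A) + ∑ v ∈ A, Psi m k l lam W q v := by
  obtain ⟨n, x⟩ := q
  have hT : ∀ n, 0 < Ts lam (m n) := fun n => Ts_pos lam hS hlam _ (hm n)
  have ho : ∀ n, 0 < oo (l n) lam := fun n => (hP lam hlam (by linarith) (l n) (hl1 n)).2.2.2.1
  have hGn : 0 ≤ Gw m l lam W n := by
    unfold Gw
    have := hT (n + 1); have := ho n; have := hW (n + 1)
    positivity
  have hV := Vq_gen m k l lam hm hk hl1 hlam hlam' hU hC1 n x A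
  have hH := (hC2 m k l hm hk hl1 lam hlam hlam' n x A).2
  have e1 : gen (nbx m k l) lam (Fq m k l lam W (n, x)) A =
      W n * gen (nbx m k l) lam (Vq m k l lam n x) A +
        Gw m l lam W n * gen (nbx m k l) lam (HH k l lam n x) A := by
    rw [← gen_smul, ← gen_smul, ← gen_add]
    rfl
  rw [e1]
  have hV' := mul_le_mul_of_nonneg_left hV (hW n).le
  have hH' := mul_le_mul_of_nonneg_left hH hGn
  have e2 : ∑ v ∈ A, Psi m k l lam W (n, x) v =
      (2 * lam ^ 3 + 2 * lam ^ 4) * (W (n + 1) * nch k n x A) +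
      2 * lam ^ 3 * (W n * (if Vx.h n x 0 ∈ A then (1 : ℝ) else 0)) +
      (Gw m l lam W (n - 1) / 2 * (∑ v ∈ A, euw k n x v) -
        Gw m l lam W n / 2 * nlf k n x A) := by
    unfold Psi
    rw [Finset.sum_add_distrib, Finset.sum_add_distrib, Finset.sum_sub_distrib, nch_eq, nlf_eq,
      port_eq]
    simp only [Finset.mul_sum]
  rw [e2]
  have hEE : EE k l lam n x A = 2 * lam ^ 3 * (1 / 19 : ℝ) ^ k n * oo (l n) lam * nch k n x A +
      (∑ v ∈ A, euw k n x v) * (lam ^ 2 * oo (l (n - 1)) lam) := by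
    unfold EE
    rw [EU_eq]
  rw [hEE] at hV'
  have hc0 : (0 : ℝ) ≤ nch k n x A := Nat.cast_nonneg _
  -- ports of the hubs below
  have k1 : W n * (Ts lam (m n) * (2 * lam ^ 3 * (1 / 19 : ℝ) ^ k n * oo (l n) lam * nch k n x A))
      ≤ 2 * lam ^ 3 * (W (n + 1) * nch k n x A) := by
    have := mul_le_mul_of_nonneg_right (h2 n) hc0
    have h4 : 0 ≤ 2 * lam ^ 3 := by positivity
    have := mul_le_mul_of_nonneg_left this h4
    nlinarith [this]
  have k2 : Gw m l lam W n * (lam ^ 2 * oo (l n) lam * nch k n x A) ≤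
      2 * lam ^ 4 * (W (n + 1) * nch k n x A) := by
    have h4 : 0 ≤ 2 * lam ^ 4 * (W (n + 1) * nch k n x A) := by
      have := hW (n + 1); positivity
    have := mul_le_mul_of_nonneg_left (h3 n) h4
    unfold Gw
    nlinarith [this]
  -- own port
  have k3 : Gw m l lam W n * (lam * (2 / 19 : ℝ) ^ k n * (if Vx.h n x 0 ∈ A then 1 else 0)) ≤
      2 * lam ^ 3 * (W n * (if Vx.h n x 0 ∈ A then (1 : ℝ) else 0)) := by
    have h0 : (0 : ℝ) ≤ (if Vx.h n x 0 ∈ A then (1 : ℝ) else 0) := by split_ifs <;> norm_num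
    have h4 : 0 ≤ 2 * lam ^ 3 * (if Vx.h n x 0 ∈ A then (1 : ℝ) else 0) := by positivity
    have := mul_le_mul_of_nonneg_left (h1 n) h4
    unfold Gw
    nlinarith [this]
  -- leaf above
  have k4 : W n * (Ts lam (m n) * ((∑ v ∈ A, euw k n x v) * (lam ^ 2 * oo (l (n - 1)) lam))) =
      Gw m l lam W (n - 1) / 2 * (∑ v ∈ A, euw k n x v) := by
    rcases n with _ | n
    · have : ∑ v ∈ A, euw k 0 x v = 0 := by
        refine Finset.sum_eq_zero fun v _ => ?_
        cases v <;> simp [euw]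
      rw [this]; ring
    · show W (n + 1) * (Ts lam (m (n + 1)) * ((∑ v ∈ A, euw k (n + 1) x v) *
        (lam ^ 2 * oo (l n) lam))) = Gw m l lam W n / 2 * _
      unfold Gw
      ring
  have e3 : hubi m (n, x) A = if (A ∩ cl m n x).Nonempty then (1 : ℝ) else 0 := rfl
  rw [e3]
  dsimp only
  nlinarith [hV', hH', k1, k2, k3, k4]

/-- connector vertices -/
noncomputable def cw (v : Vx) : ℝ := if isConn v = true then 1 else 0

lemma gen_conn (m k l : ℕ → ℕ) (lam : ℝ) (hlam : 0 < lam) (hlam' : lam ≤ 1 / 20)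
    (I : Finset (ℕ × ℕ)) (A : Finset Vx) (hI : A.biUnion (hb k) ⊆ I) :
    gen (nbx m k l) lam (fun B => ∑ v ∈ B, cw v) A ≤
      -((1 - 3 * lam) * ∑ v ∈ A, cw v) + 2 * lam * ∑ q ∈ I, ∑ v ∈ A, ptw q.1 q.2 v := by
  have h0 : ∀ v, 0 ≤ cw v := fun v => by unfold cw; split_ifs <;> norm_num
  have h1 := gen_additive_le (nbx m k l) lam hlam.le cw h0 A
  refine h1.trans ?_
  rw [Finset.sum_comm, Finset.mul_sum, Finset.mul_sum, ← Finset.sum_neg_distrib,
    ← Finset.sum_add_distrib]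
  refine Finset.sum_le_sum fun v hv => ?_
  have hcw : ∀ s : Finset Vx, ∑ y ∈ s, cw y ≤ s.card := fun s => by
    calc ∑ y ∈ s, cw y ≤ ∑ y ∈ s, (1 : ℝ) := Finset.sum_le_sum fun y _ => by
          unfold cw; split_ifs <;> norm_num
      _ = s.card := by simp
  have hpt : 0 ≤ ∑ q ∈ I, ptw q.1 q.2 v := Finset.sum_nonneg fun q _ => ptw_nonneg _ _ _
  cases v with
  | h n y i =>
    have hc : cw (Vx.h n y i) = 0 := by simp [cw, isConn]
    rw [hc]
    have hcl : ∀ s : Finset ℕ, ∑ z ∈ s.image (Vx.h n y), cw z = 0 := fun s => by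
      refine Finset.sum_eq_zero fun z hz => ?_
      obtain ⟨j, _, rfl⟩ := Finset.mem_image.1 hz
      simp [cw, isConn]
    by_cases hi : i = 0
    · subst hi
      have hq0 : (n, y) ∈ I := hI (by
        rw [Finset.mem_biUnion]; exact ⟨_, hv, by simp [hb]⟩)
      have h2 : ∑ q ∈ I, ptw q.1 q.2 (Vx.h n y 0) = 1 := by
        have := sum_single_eq I (fun _ => (1 : ℝ)) (n, y) hq0 _ (ptw_port n y)
        simpa using this
      rw [h2]
      have h3 : ∑ z ∈ nbx m k l (Vx.h n y 0), cw z ≤ 2 := by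
        rw [nbx_h]
        split_ifs with h4 h5
        · have h6 := Finset.sum_union_inter (s₁ := ((Finset.range (m n)).erase 0).image (Vx.h n y))
            (s₂ := insert (Vx.t n 0 y) (upv l n y)) (f := cw)
          have h7 : 0 ≤ ∑ z ∈ ((Finset.range (m n)).erase 0).image (Vx.h n y) ∩
            insert (Vx.t n 0 y) (upv l n y), cw z := Finset.sum_nonneg fun z _ => h0 z
          have h8 := hcl ((Finset.range (m n)).erase 0)
          have h9 : ((insert (Vx.t n 0 y) (upv l n y)).card : ℝ) ≤ 2 := by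
            have : (insert (Vx.t n 0 y) (upv l n y)).card ≤ 2 := by
              refine (Finset.card_insert_le _ _).trans ?_
              rcases n with _ | n <;> simp [upv]
            exact_mod_cast this
          have h10 := hcw (insert (Vx.t n 0 y) (upv l n y))
          linarith
        · exact absurd rfl h5
        · simp
      nlinarith [h3]
    · have h3 : ∑ z ∈ nbx m k l (Vx.h n y i), cw z = 0 := by
        rw [nbx_h, if_neg hi, Finset.union_empty]
        split_ifs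
        · exact hcl _
        · simp
      rw [h3]
      nlinarith
  | t n i y =>
    have hc : cw (Vx.t n i y) = 1 := by simp [cw, isConn]
    rw [hc]
    have h3 : ((nbx m k l (Vx.t n i y)).card : ℝ) ≤ 3 := by
      have : (nbx m k l (Vx.t n i y)).card ≤ 3 := by
        rw [nbx_t]
        split_ifs <;> first | exact (Finset.card_insert_le _ _).trans (by
          first | exact Nat.succ_le_succ (Finset.card_le_two) | simp) | simp
      exact_mod_cast this
    have h4 := (hcw (nbx m k l (Vx.t n i y))).trans h3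
    nlinarith [mul_le_mul_of_nonneg_left h4 hlam.le]
  | p n j y =>
    have hc : cw (Vx.p n j y) = 1 := by simp [cw, isConn]
    rw [hc]
    have h3 : ((nbx m k l (Vx.p n j y)).card : ℝ) ≤ 3 := by
      have : (nbx m k l (Vx.p n j y)).card ≤ 3 := by
        rw [nbx_p]
        by_cases hj : j < l n
        · rw [if_pos hj]
          exact Finset.card_le_two.trans (by norm_num)
        · rw [if_neg hj]; simp
      exact_mod_cast this
    have h4 := (hcw (nbx m k l (Vx.p n j y))).trans h3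
    nlinarith [mul_le_mul_of_nonneg_left h4 hlam.le]

theorem ups : St_HUP → St_CONN1 → St_CONN2 → St_SEQ → St_PATH → St_UPS := by
  intro hU hC1 hC2 hS hP m k l hm hk hl1 lam hlam hlam' W hW h1 h2 h3 ε hε hεW
  have hT : ∀ n, 0 < Ts lam (m n) := fun n => Ts_pos lam hS hlam _ (hm n)
  have ho : ∀ n, 0 < oo (l n) lam := fun n => (hP lam hlam (by linarith) (l n) (hl1 n)).2.2.2.1
  have hG : ∀ n, 0 ≤ Gw m l lam W n := by
    intro n
    unfold Gw
    have := hT (n + 1); have := ho n; have := hW (n + 1)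
    positivity
  have hFnn : ∀ q A, 0 ≤ Fq m k l lam W q A := by
    intro q A
    unfold Fq
    have a1 := Vq_nonneg m k l lam hm hk hl1 hlam hlam' hC1 hS q.1 q.2 A
    have a2 := (hC2 m k l hm hk hl1 lam hlam hlam' q.1 q.2 A).1
    have a3 := (hW q.1).le
    have a4 := hG q.1
    positivity
  have hFz : ∀ (q : ℕ × ℕ) A, q ∉ A.biUnion (hb k) → Fq m k l lam W q A = 0 := by
    intro q A hq
    unfold Fq
    rw [Vq_zero m k l lam hm hl1 hlam hlam' hP hS q.1 q.2 A hq,
      HH_zero k l lam hl1 hlam hlam' hP q.1 q.2 A hq]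
    ring
  set f : Finset Vx → ℝ := fun A => ∑ q ∈ A.biUnion (hb k), Fq m k l lam W q A +
    ε * ∑ v ∈ A, cw v with hf
  have hcw0 : ∀ v, 0 ≤ cw v := fun v => by unfold cw; split_ifs <;> norm_num
  have hfnn : ∀ A, 0 ≤ f A := fun A =>
    add_nonneg (Finset.sum_nonneg fun q _ => hFnn q A)
      (mul_nonneg hε (Finset.sum_nonneg fun v _ => hcw0 v))
  have hfI : ∀ (I : Finset (ℕ × ℕ)) A, A.biUnion (hb k) ⊆ I →
      f A = ∑ q ∈ I, Fq m k l lam W q A + ε * ∑ v ∈ A, cw v := by
    intro I A hI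
    simp only [hf]
    rw [Finset.sum_subset hI (fun q _ hq => hFz q A hq)]
  refine ⟨fun A => ENNReal.ofReal (f A), fun A => ENNReal.ofReal_ne_top, ?_⟩
  intro A hA
  set D1 : ℝ := if (A ∩ cl m 0 0).Nonempty then W 0 / 4 else 0 with hD1
  set D2 : ℝ := if A = ∅ then 0 else ε / 4 with hD2
  have hD1n : 0 ≤ D1 := by
    rw [hD1]; split_ifs
    · have := hW 0; positivity
    · exact le_rfl
  have hD2n : 0 ≤ D2 := by
    rw [hD2]; split_ifs
    · exact le_rfl
    · positivity
  rw [← ENNReal.ofReal_add hD1n hD2n]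
  refine up_le_of_gen (nbx m k l) lam hlam.le f hfnn A _ (add_nonneg hD1n hD2n) ?_
  set I : Finset (ℕ × ℕ) := (A ∪ A.biUnion (nbx m k l)).biUnion (hb k) with hIdef
  have hIA : A.biUnion (hb k) ⊆ I :=
    Finset.biUnion_subset_biUnion_of_subset_left _ Finset.subset_union_left
  have hg : gen (nbx m k l) lam f A = gen (nbx m k l) lam
      (fun B => ∑ q ∈ I, Fq m k l lam W q B + ε * ∑ v ∈ B, cw v) A := by
    refine gen_congr _ _ _ _ _ (hfI I A hIA) ?_ ?_
    · intro x _
      refine hfI I _ ((Finset.biUnion_subset_biUnion_of_subset_left _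
        (Finset.erase_subset _ _)).trans hIA)
    · intro x hx y hy
      refine hfI I _ (Finset.biUnion_subset_biUnion_of_subset_left _ ?_)
      intro z hz
      rw [Finset.mem_insert] at hz
      rw [Finset.mem_union, Finset.mem_biUnion]
      rcases hz with rfl | hz
      · exact Or.inr ⟨x, hx, hy⟩
      · exact Or.inl hz
  rw [hg, gen_add, gen_sum, gen_smul]
  have b1 : ∑ q ∈ I, gen (nbx m k l) lam (Fq m k l lam W q) A ≤
      ∑ q ∈ I, (- (W q.1 * hubi m q A) + ∑ v ∈ A, Psi m k l lam W q v) :=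
    Finset.sum_le_sum fun q _ => gen_Fq hU hC1 hC2 hS hP m k l hm hk hl1 lam hlam hlam' W hW
      h1 h2 h3 q A
  have b2 : ∑ q ∈ I, ∑ v ∈ A, Psi m k l lam W q v ≤
      (4 * lam ^ 3 + 2 * lam ^ 4) * ∑ q ∈ I, W q.1 * ∑ v ∈ A, ptw q.1 q.2 v := by
    rw [Finset.sum_comm]
    have : ∑ v ∈ A, ∑ q ∈ I, Psi m k l lam W q v ≤
        ∑ v ∈ A, (4 * lam ^ 3 + 2 * lam ^ 4) * ∑ q ∈ I, W q.1 * ptw q.1 q.2 v := by
      refine Finset.sum_le_sum fun v hv => sum_Psi m k l lam W hlam hW hG I v ?_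
      exact (Finset.subset_biUnion_of_mem (hb k) hv).trans hIA
    refine this.trans (le_of_eq ?_)
    rw [← Finset.mul_sum, Finset.sum_comm]
    simp only [Finset.mul_sum]
  have b3 := gen_conn m k l lam hlam hlam' I A hIA
  have b4 : ∀ q ∈ I, ∑ v ∈ A, ptw q.1 q.2 v ≤ hubi m q A := by
    intro q _
    rw [← port_eq]
    unfold hubi
    by_cases hp : Vx.h q.1 q.2 0 ∈ A
    · rw [if_pos hp, if_pos]
      exact ⟨_, Finset.mem_inter.2 ⟨hp, (mem_cl m _ _ _).2 ⟨0, hm q.1, rfl⟩⟩⟩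
    · rw [if_neg hp]; split_ifs <;> norm_num
  have hubn : ∀ q, 0 ≤ hubi m q A := fun q => by unfold hubi; split_ifs <;> norm_num
  set P : ℕ × ℕ → ℝ := fun q => ∑ v ∈ A, ptw q.1 q.2 v with hPdef
  have hPn : ∀ q, 0 ≤ P q := fun q => Finset.sum_nonneg fun v _ => ptw_nonneg _ _ _
  set C : ℝ := ∑ v ∈ A, cw v with hC
  have hCn : 0 ≤ C := Finset.sum_nonneg fun v _ => hcw0 v
  have b5 : ∑ q ∈ I, gen (nbx m k l) lam (Fq m k l lam W q) A +
      ε * gen (nbx m k l) lam (fun B => ∑ v ∈ B, cw v) A ≤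
      -(1 / 2 * ∑ q ∈ I, W q.1 * hubi m q A) - 17 / 20 * ε * C := by
    have c1 : ∑ q ∈ I, (- (W q.1 * hubi m q A) + ∑ v ∈ A, Psi m k l lam W q v) =
        - ∑ q ∈ I, W q.1 * hubi m q A + ∑ q ∈ I, ∑ v ∈ A, Psi m k l lam W q v := by
      rw [Finset.sum_add_distrib, Finset.sum_neg_distrib]
    have c2 : ∑ q ∈ I, W q.1 * P q ≤ ∑ q ∈ I, W q.1 * hubi m q A :=
      Finset.sum_le_sum fun q hq => mul_le_mul_of_nonneg_left (b4 q hq) (hW q.1).le
    have c3 : ε * ∑ q ∈ I, P q ≤ 1 / 16 * ∑ q ∈ I, W q.1 * hubi m q A := by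
      rw [Finset.mul_sum, Finset.mul_sum]
      refine Finset.sum_le_sum fun q hq => ?_
      have d1 := hεW q.1
      have d2 := b4 q hq
      have d3 : ε * P q ≤ ε * hubi m q A := mul_le_mul_of_nonneg_left d2 hε
      have d4 := mul_le_mul_of_nonneg_right d1 (hubn q)
      linarith
    have c4 : 0 ≤ ∑ q ∈ I, W q.1 * hubi m q A :=
      Finset.sum_nonneg fun q _ => mul_nonneg (hW q.1).le (hubn q)
    have c5 : 4 * lam ^ 3 + 2 * lam ^ 4 ≤ 1 / 1000 := by
      have e1 : lam ^ 3 ≤ (1 / 20) ^ 3 := pow_le_pow_left₀ hlam.le hlam' 3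
      have e2 : lam ^ 4 ≤ (1 / 20) ^ 4 := pow_le_pow_left₀ hlam.le hlam' 4
      norm_num at e1 e2
      linarith
    have c6 : (4 * lam ^ 3 + 2 * lam ^ 4) * ∑ q ∈ I, W q.1 * P q ≤
        1 / 1000 * ∑ q ∈ I, W q.1 * hubi m q A :=
      mul_le_mul c5 c2 (Finset.sum_nonneg fun q _ => mul_nonneg (hW q.1).le (hPn q)) (by norm_num)
    have c7 := mul_le_mul_of_nonneg_left b3 hε
    have c8 : 2 * lam * (ε * ∑ q ∈ I, P q) ≤ 1 / 10 * (1 / 16 * ∑ q ∈ I, W q.1 * hubi m q A) := by
      refine mul_le_mul (by linarith) c3 (mul_nonneg hε (Finset.sum_nonneg fun q _ => hPn q))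
        (by norm_num)
    have c9 : 0 ≤ ε * C := mul_nonneg hε hCn
    have c10 : lam * (ε * C) ≤ 1 / 20 * (ε * C) := mul_le_mul_of_nonneg_right hlam' c9
    nlinarith [b1, b2, c1, c6, c7, c8, c10, c4, c9]
  refine b5.trans ?_
  have hSn : 0 ≤ ∑ q ∈ I, W q.1 * hubi m q A :=
    Finset.sum_nonneg fun q _ => mul_nonneg (hW q.1).le (hubn q)
  have hεC : 0 ≤ ε * C := mul_nonneg hε hCn
  have hhub : ∀ v ∈ A, ∀ n y i, v = Vx.h n y i → v ∈ cl m n y →
      W n ≤ ∑ q ∈ I, W q.1 * hubi m q A := by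
    intro v hv n y i hvy hvc
    have hq : (n, y) ∈ I := by
      refine hIA ?_
      rw [Finset.mem_biUnion]
      exact ⟨v, hv, by rw [hvy]; simp [hb]⟩
    have := Finset.single_le_sum (f := fun q : ℕ × ℕ => W q.1 * hubi m q A)
      (fun q _ => mul_nonneg (hW q.1).le (hubn q)) hq
    have e : hubi m (n, y) A = 1 := by
      unfold hubi
      rw [if_pos]
      exact ⟨v, Finset.mem_inter.2 ⟨hv, hvc⟩⟩
    simp only [e, mul_one] at this
    exact this
  by_cases hA0 : A = ∅
  · have : D1 = 0 := by rw [hD1, hA0]; simp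
    have h' : D2 = 0 := by rw [hD2, if_pos hA0]
    rw [this, h']
    nlinarith
  have hD2' : D2 = ε / 4 := by rw [hD2, if_neg hA0]
  by_cases hroot : (A ∩ cl m 0 0).Nonempty
  · have hD1' : D1 = W 0 / 4 := by rw [hD1, if_pos hroot]
    obtain ⟨v, hv⟩ := hroot
    rw [Finset.mem_inter] at hv
    obtain ⟨i, hi, hvi⟩ := (mem_cl m 0 0 v).1 hv.2
    have := hhub v hv.1 0 0 i hvi hv.2
    rw [hD1', hD2']
    have h16 := hεW 0
    nlinarith
  · have hD1' : D1 = 0 := by rw [hD1, if_neg hroot]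
    rw [hD1', hD2']
    obtain ⟨v, hv⟩ := Finset.nonempty_iff_ne_empty.2 hA0
    cases hvc : v with
    | h n y i =>
      have hval : i < m n := by
        have := hA v hv
        rw [hvc] at this
        exact this
      have := hhub v hv n y i hvc ((mem_cl m n y v).2 ⟨i, hval, hvc⟩)
      have h16 := hεW n
      nlinarith
    | t n i y =>
      have hC1' : 1 ≤ C := by
        have := Finset.single_le_sum (f := cw) (fun z _ => hcw0 z) hv
        have e : cw v = 1 := by rw [hvc]; simp [cw, isConn]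
        linarith
      nlinarith
    | p n j y =>
      have hC1' : 1 ≤ C := by
        have := Finset.single_le_sum (f := cw) (fun z _ => hcw0 z) hv
        have e : cw v = 1 := by rw [hvc]; simp [cw, isConn]
        linarith
      nlinarith

end Pool.Agent.W817.CPU
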